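import Mathlib
import Pool.Agent.K9h5.W.ExP
import Pool.Agent.K9h5.W.Conv

/-!
# Rational points on the general hypersurface in a bundle of projective lines

`A = E_1 × ... × E_r` is a product of elliptic curves `E_i : y ^ 2 = x ^ 3 + a_i x + b_i` over `ℚ`. The
hypersurfaces `G_0 w ^ n + G_1 w ^ (n - 1) v + ... + G_n v ^ n = 0` of degree `n ≥ 2`, whose
coefficients `G_k` are multihomogeneous of degrees `d_i + k c_i` in the coordinates of `E_i`, form an
affine space: for `c = 0` they are all hypersurfaces of degrees `(d, n)` in `A × ℙ ^ 1`, for `d = 0` and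
`G_0 = 1` all covers `w ^ n + G_1 w ^ (n - 1) + ... + G_n = 0` of `A` of degrees `c`. If `c_j + d_j ≥ 1`,
there is a proper closed subset `Z` of this space, which contains no complex hypersurface with symmetric
monodromy and odd branching in the direction of `E_j`, such that over each number field `K` with ranks
of all `E_i(K)` at least one and of `E_j(K)` at least three, each hypersurface over `K` outside of `Z`
has few rational points: the points `P` of `A(K)` below its `K`-points (and all `P` over which the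
polynomial does not have Galois group `S_n`) are few, by a power of the height bound, uniformly in the
hypersurface.
-/

set_option autoImplicit false
set_option linter.all false

namespace Pool.Agent.Results.MP_2ae8fe_ag.GeneralHypersurfaceSaving

open WeierstrassCurve

/-- the group of `K`-points of the elliptic curve `y ^ 2 = x ^ 3 + a x + b` -/
abbrev E (K : Type) [Field K] (a b : ℤ) : Type :=
  (⟨0, 0, 0, (a : K), (b : K)⟩ : WeierstrassCurve K).toAffine.Point

/-- homogeneous coordinates: `(0 : 1 : 0)` for the point at infinity, `(x : y : 1)` otherwise -/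
def xyz {K : Type} [Field K] {a b : ℤ} : E K a b → Fin 3 → K
  | Affine.Point.zero => ![0, 1, 0]
  | Affine.Point.some x y _ => ![x, y, 1]

/-- the logarithmic height, relative to `K`, of the `x`-coordinate of a point -/
noncomputable def ht {K : Type} [Field K] [NumberField K] {a b : ℤ} : E K a b → ℝ
  | Affine.Point.zero => 0
  | Affine.Point.some x _ _ => Height.logHeight₁ x

/-- The `k`-th coefficient `G_k` is homogeneous of degree `d_i + k c_i` in the coordinates of the
`i`-th curve, for each `i`: the tuple `G` is a hypersurface `G_0 w ^ n + G_1 w ^ (n - 1) v + ... +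
G_n v ^ n = 0` in a bundle of projective lines over the product of the curves. -/
def Multihomogeneous {r n : ℕ} {R : Type} [CommRing R]
    (G : Fin (n + 1) → MvPolynomial (Fin r × Fin 3) R) (c d : Fin r → ℕ) : Prop :=
  ∀ k i, (G k).IsWeightedHomogeneous (fun v => if v.1 = i then 1 else 0) (d i + (k : ℕ) * c i)

/-- the hypersurface has a point `(w : v)` over the tuple `V` of coordinates -/
def HasPoint {K : Type} [Field K] {r n : ℕ} (G : Fin (n + 1) → MvPolynomial (Fin r × Fin 3) K)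
    (V : Fin r → Fin 3 → K) : Prop :=
  ∃ w v : K, (w ≠ 0 ∨ v ≠ 0) ∧ ∑ k : Fin (n + 1),
    MvPolynomial.aeval (fun u : Fin r × Fin 3 => V u.1 u.2) (G k) * w ^ (n - (k : ℕ)) *
      v ^ (k : ℕ) = 0

/-- The monic polynomial `w ^ n + G_1 w ^ (n - 1) + G_0 G_2 w ^ (n - 2) + ... + G_0 ^ (n - 1) G_n` at
the tuple `V` of coordinates in an `R`-algebra `S`; its roots are the `G_0 w` for the roots `w` of
`G_0 w ^ n + G_1 w ^ (n - 1) + ... + G_n`. -/
noncomputable def cov {r n : ℕ} {R S : Type} [CommRing R] [CommRing S] [Algebra R S]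
    (G : Fin (n + 1) → MvPolynomial (Fin r × Fin 3) R) (V : Fin r → Fin 3 → S) : Polynomial S :=
  Polynomial.X ^ n + ∑ k : Fin n, Polynomial.C
    (MvPolynomial.aeval (fun v : Fin r × Fin 3 => V v.1 v.2) (G 0 ^ (k : ℕ) * G k.succ)) *
      Polynomial.X ^ (n - 1 - (k : ℕ))

/-- The closed set `Z` in the space of the coefficients is the set of the common zeros of finitely
many integral polynomials, whose variables are the pairs of an index `k` and a monomial; the
hypersurface `G` is outside of it. -/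
def Off {r n : ℕ} {R : Type} [CommRing R]
    (Z : Finset (MvPolynomial (Fin (n + 1) × (Fin r × Fin 3 →₀ ℕ)) ℤ))
    (G : Fin (n + 1) → MvPolynomial (Fin r × Fin 3) R) : Prop :=
  ∃ φ ∈ Z, MvPolynomial.aeval
    (fun x : Fin (n + 1) × (Fin r × Fin 3 →₀ ℕ) => (G x.1).coeff x.2) φ ≠ 0

/-- the complex elliptic curve `y ^ 2 = x ^ 3 + a x + b` -/
abbrev EC (a b : ℤ) : WeierstrassCurve.Affine ℂ :=
  (⟨0, 0, 0, (a : ℂ), (b : ℂ)⟩ : WeierstrassCurve ℂ).toAffine

/-- the coordinates `(x : y : 1)` of the generic point of the complex curve, in its function field -/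
noncomputable def gpt (a b : ℤ) : Fin 3 → (EC a b).FunctionField :=
  ![algebraMap (EC a b).CoordinateRing (EC a b).FunctionField
      (Affine.CoordinateRing.mk (EC a b) (Polynomial.C Polynomial.X)),
    algebraMap (EC a b).CoordinateRing (EC a b).FunctionField
      (Affine.CoordinateRing.mk (EC a b) Polynomial.X), 1]

/-- The complex hypersurface `G` has symmetric monodromy and is branched in the direction of the
`j`-th factor: there are complex points `V_i = (x_i, y_i)` on the other factors such that the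
restriction of the polynomial to the curve `{V} × E_j` has a Galois group of order `n !` over the
function field of `E_j`, and there is a formal arc `W` in `E_j` along which the discriminant of the
restricted polynomial has odd order `m`. -/
def SymBranched {r n : ℕ} (a b : Fin r → ℤ) (G : Fin (n + 1) → MvPolynomial (Fin r × Fin 3) ℂ)
    (j : Fin r) : Prop :=
  ∃ (V : Fin r → Fin 3 → ℂ) (W : Fin 3 → PowerSeries ℂ) (m : ℕ),
    (∀ i, i ≠ j → V i 2 = 1 ∧ V i 1 ^ 2 = V i 0 ^ 3 + a i * V i 0 + b i) ∧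
    Nat.card (cov G (fun i k => if i = j then gpt (a j) (b j) k else
      algebraMap ℂ (EC (a j) (b j)).FunctionField (V i k))).Gal = n.factorial ∧
    W ≠ 0 ∧ W 1 ^ 2 * W 2 = W 0 ^ 3 + (a j : PowerSeries ℂ) * W 0 * W 2 ^ 2 +
      (b j : PowerSeries ℂ) * W 2 ^ 3 ∧
    (Polynomial.discr (cov G (fun i k => if i = j then W k else PowerSeries.C (V i k)))).order = m ∧
    Odd m

/-- For all hypersurfaces `G` of degrees `c, d` over `K` outside of `Z`, whose coefficients have
heights at most `B ^ u`: of the tuples `P` of `K`-points of the curves with heights at most `B`, which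
are finite in number, at most a proportion of `C B ^ (-e)` is such that the hypersurface has a
`K`-point over `P` or the polynomial at `P` does not have a Galois group of order `n !` over `K`. The
constant `C` does not depend on `G`. -/
def UniformSaving (K : Type) [Field K] [NumberField K] {r : ℕ} (n : ℕ) (a b : Fin r → ℤ)
    (c d : Fin r → ℕ) (Z : Finset (MvPolynomial (Fin (n + 1) × (Fin r × Fin 3 →₀ ℕ)) ℤ))
    (e u : ℝ) : Prop :=
  ∃ C : ℝ, 0 < C ∧ ∀ B : ℝ, 1 ≤ B →
    {P : ∀ i, E K (a i) (b i) | ∀ i, ht (P i) ≤ B}.Finite ∧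
    ∀ G : Fin (n + 1) → MvPolynomial (Fin r × Fin 3) K, Multihomogeneous G c d →
      (∀ k μ, Height.logHeight₁ ((G k).coeff μ) ≤ B ^ u) → Off Z G →
      ({P : ∀ i, E K (a i) (b i) | (∀ i, ht (P i) ≤ B) ∧
        (HasPoint G (fun i => xyz (P i)) ∨
          Nat.card (cov G (fun i => xyz (P i))).Gal ≠ n.factorial)}.ncard : ℝ) ≤
      C * (B ^ (-e) * ({P : ∀ i, E K (a i) (b i) | ∀ i, ht (P i) ≤ B}.ncard : ℝ))

theorem cov_pol {r n : ℕ} {R S : Type} [CommRing R] [CommRing S] [Algebra R S]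
    (G : Fin (n + 1) → MvPolynomial (Fin r × Fin 3) R) (V : Fin r → Fin 3 → S) :
    cov G V = Pool.Agent.K9h5.T.pol (fun k => MvPolynomial.aeval
      (fun v : Fin r × Fin 3 => V v.1 v.2) (Pool.Agent.K9h5.W.mon G k)) := rfl

theorem SB_of {r n : ℕ} (hn : 2 ≤ n) {a b : Fin r → ℤ}
    {G : Fin (n + 1) → MvPolynomial (Fin r × Fin 3) ℂ}
    {j : Fin r} (h : SymBranched a b G j) :
    Pool.Agent.K9h5.W.SB a b (Pool.Agent.K9h5.W.mon G) j := by
  obtain ⟨V, W, m, haff, hgal, hW0, hWE, hord, hm⟩ := h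
  rw [cov_pol] at hord
  refine Pool.Agent.K9h5.W.SB_of_gal hn a b _ j V W m haff _ ?_ hgal hW0 hWE ?_ hm
  · rfl
  · exact hord

theorem disc_of {r : ℕ} {a b : Fin r → ℤ} (hE : ∀ i, 4 * a i ^ 3 + 27 * b i ^ 2 ≠ 0) :
    ∀ i, Pool.Agent.H901R3.MS.Disc (a i : ℚ) (b i : ℚ) := by
  intro i h0
  apply hE i
  have h1 : (4 * (a i : ℚ) ^ 3 + 27 * (b i : ℚ) ^ 2) = 0 := by
    rcases mul_eq_zero.1 h0 with h | h
    · norm_num at h
    · exact h
  exact_mod_cast h1

theorem hts_eq {K : Type} [Field K] [NumberField K] {r : ℕ} (a b : Fin r → ℤ) (B : ℝ) :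
    {P : ∀ i, E K (a i) (b i) | ∀ i, ht (P i) ≤ B} =
      Pool.Agent.K9h5.N.ABg (fun i => Pool.Agent.K9h5.N.hK (a := (a i : K)) (b := (b i : K))) B := by
  have hht : ∀ (i : Fin r) (P : E K (a i) (b i)),
      ht P = Pool.Agent.K9h5.N.hK (a := (a i : K)) (b := (b i : K)) P := by
    intro i P
    cases P with
    | zero => exact Pool.Agent.K9h5.N.hK_zero.symm
    | some x y h => exact (Pool.Agent.K9h5.N.hK_some x y h).symm
  ext P
  rw [Set.mem_setOf_eq]
  simp only [hht]
  rfl

theorem exc_sub {K : Type} [Field K] [NumberField K] [DecidableEq K] {r n : ℕ} (hn : 2 ≤ n)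
    (a b : Fin r → ℤ) (G : Fin (n + 1) → MvPolynomial (Fin r × Fin 3) K) (B : ℝ) :
    {P : ∀ i, E K (a i) (b i) | (∀ i, ht (P i) ≤ B) ∧
        (HasPoint G (fun i => xyz (P i)) ∨
          Nat.card (cov G (fun i => xyz (P i))).Gal ≠ n.factorial)} ⊆
      Pool.Agent.K9h5.W.ExcG K a b (Pool.Agent.K9h5.W.mon G) B := by
  have hht : ∀ (i : Fin r) (P : E K (a i) (b i)),
      ht P = Pool.Agent.K9h5.N.hK (a := (a i : K)) (b := (b i : K)) P := by
    intro i P
    cases P with
    | zero => exact Pool.Agent.K9h5.N.hK_zero.symm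
    | some x y h => exact (Pool.Agent.K9h5.N.hK_some x y h).symm
  have hxyz : ∀ (i : Fin r) (P : E K (a i) (b i)) (k : Fin 3),
      xyz P k = Pool.Agent.H901R3.MS.rep (a := (a i : K)) (b := (b i : K)) P k := by
    intro i P k
    cases P <;> rfl
  rintro P ⟨hP, hex⟩
  have hcov : cov G (fun i => xyz (P i)) = Pool.Agent.K9h5.T.pol (fun k => MvPolynomial.eval
      (fun v : Fin r × Fin 3 => Pool.Agent.H901R3.MS.rep (a := (a v.1 : K)) (b := (b v.1 : K))
        (P v.1) v.2) (Pool.Agent.K9h5.W.mon G k)) := by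
    rw [cov_pol]
    congr 1
    funext k
    rw [MvPolynomial.aeval_eq_eval]
    congr 2
    funext v
    exact hxyz v.1 (P v.1) v.2
  refine ⟨fun i => by rw [← hht]; exact hP i, ?_⟩
  rw [← hcov]
  rcases hex with ⟨w, v, hwv, h⟩ | h
  · right
    obtain ⟨x, hx⟩ := Pool.Agent.K9h5.W.root_of_pt hn
      (fun k => MvPolynomial.aeval (fun u : Fin r × Fin 3 => xyz (P u.1) u.2) (G k)) w v hwv h
    refine ⟨x, ?_⟩
    have h1 : cov G (fun i => xyz (P i)) = Pool.Agent.K9h5.T.pol (fun k : Fin n =>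
        MvPolynomial.aeval (fun u : Fin r × Fin 3 => xyz (P u.1) u.2) (G 0) ^ (k : ℕ) *
          MvPolynomial.aeval (fun u : Fin r × Fin 3 => xyz (P u.1) u.2) (G k.succ)) := by
      rw [cov_pol]
      congr 1
      funext k
      unfold Pool.Agent.K9h5.W.mon
      rw [map_mul, map_pow]
    rw [h1]
    exact hx
  · left
    exact h

/-- **Rational points on the general hypersurface in a bundle of projective lines.** -/
theorem result (r : ℕ) (a b : Fin r → ℤ) (hE : ∀ i, 4 * a i ^ 3 + 27 * b i ^ 2 ≠ 0)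
    (n : ℕ) (hn : 2 ≤ n) (c d : Fin r → ℕ) (j : Fin r) (hcd : 1 ≤ c j + d j) :
    ∃ Z : Finset (MvPolynomial (Fin (n + 1) × (Fin r × Fin 3 →₀ ℕ)) ℤ),
      (∃ G : Fin (n + 1) → MvPolynomial (Fin r × Fin 3) ℂ, Multihomogeneous G c d ∧
        (d = 0 → G 0 = 1) ∧ Off Z G) ∧
      (∀ G : Fin (n + 1) → MvPolynomial (Fin r × Fin 3) ℂ, Multihomogeneous G c d →
        SymBranched a b G j → Off Z G) ∧
      ∀ (K : Type) [Field K] [NumberField K] [DecidableEq K],
        (∀ i, 1 ≤ Module.finrank ℤ (E K (a i) (b i))) → 3 ≤ Module.finrank ℤ (E K (a j) (b j)) →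
          UniformSaving K n a b c d Z (1 / 300) (33 / 200) := by
  classical
  have hD := disc_of hE
  obtain ⟨Z, hZ1, hZ2⟩ := Pool.Agent.K9h5.W.univP_fam hn a b hD c d j
  have hex : ∃ G : Fin (n + 1) → MvPolynomial (Fin r × Fin 3) ℂ, Multihomogeneous G c d ∧
      (d = 0 → G 0 = 1) ∧ Off Z G := by
    obtain ⟨G, hG, hG1, hSB⟩ := Pool.Agent.K9h5.W.existsP_SB hn a b c d j hcd
    exact ⟨G, hG, hG1, hZ1 G hG hSB⟩
  refine ⟨Z, hex, fun G hG hs => hZ1 G hG (SB_of hn hs), ?_⟩
  intro K _ _ _ h1 h3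
  have hsmall := fun φ (hφ : φ ∈ Z) => (hZ2 φ hφ K).2 h1 h3
  obtain ⟨C, hC⟩ : ∃ C : MvPolynomial (Fin (n + 1) × (Fin r × Fin 3 →₀ ℕ)) ℤ → ℝ, ∀ φ ∈ Z,
      0 < C φ ∧ ∀ B : ℝ, 1 ≤ B → (Pool.Agent.K9h5.N.ABg
        (fun i => Pool.Agent.K9h5.N.hK (a := (a i : K)) (b := (b i : K))) B).Finite ∧
        ∀ G : Fin (n + 1) → MvPolynomial (Fin r × Fin 3) K, Pool.Agent.K9h5.W.MHP G c d →
          (∀ x, Height.logHeight₁ (Pool.Agent.K9h5.W.coP G x) ≤ B ^ (33 / 200 : ℝ)) →
          MvPolynomial.aeval (Pool.Agent.K9h5.W.coP G) φ ≠ 0 →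
          ((Pool.Agent.K9h5.W.ExcG K a b (Pool.Agent.K9h5.W.mon G) B).ncard : ℝ) ≤
          C φ * (B ^ (-(1 / 300) : ℝ) * ((Pool.Agent.K9h5.N.ABg
            (fun i => Pool.Agent.K9h5.N.hK (a := (a i : K)) (b := (b i : K))) B).ncard : ℝ)) := by
    refine ⟨fun φ => if h : φ ∈ Z then (hsmall φ h).choose else 0, fun φ hφ => ?_⟩
    have h5 := (hsmall φ hφ).choose_spec
    simp only [dif_pos hφ]
    exact h5
  have hZne : Z.Nonempty := by
    obtain ⟨G, _, _, φ, hφ, _⟩ := hex
    exact ⟨φ, hφ⟩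
  refine ⟨∑ φ ∈ Z, C φ, Finset.sum_pos (fun φ hφ => (hC φ hφ).1) hZne, ?_⟩
  intro B hB
  rw [hts_eq]
  constructor
  · obtain ⟨φ, hφ⟩ := hZne
    exact ((hC φ hφ).2 B hB).1
  · rintro G hG hh ⟨φ, hφ, hne⟩
    have hfin := ((hC φ hφ).2 B hB).1
    refine le_trans (Nat.cast_le.2 (Set.ncard_le_ncard (exc_sub hn a b G B)
      (hfin.subset (fun P hP => hP.1)))) ?_
    refine (((hC φ hφ).2 B hB).2 G hG (fun x => hh x.1 x.2) hne).trans ?_
    refine mul_le_mul_of_nonneg_right ?_ (by positivity)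
    exact Finset.single_le_sum (f := C) (fun φ hφ => (hC φ hφ).1.le) hφ

end Pool.Agent.Results.MP_2ae8fe_ag.GeneralHypersurfaceSaving
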