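import Mathlib
import Pool.Agent.K9h5.C.Ex
import Pool.Agent.K9h5.G.Fib

/-!
# Rational points on cyclic covers and hypersurfaces `G_0 w ^ n + G_1 v ^ n = 0` of general type

`A = E_1 × ... × E_r` is a product of elliptic curves `E_i : y ^ 2 = x ^ 3 + a_i x + b_i` over `ℚ`,
and `n ≥ 2`. The hypersurfaces `G_0 w ^ n + G_1 v ^ n = 0`, whose coefficients `G_0`, `G_1` are
multihomogeneous of degrees `d_i`, `d_i + n c_i` in the coordinates of `E_i`, form an affine space: for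
`c = 0` they are hypersurfaces in `A × ℙ ^ 1`, for `d = 0` and `G_0 = 1` the cyclic covers
`w ^ n = - G_1` of `A`. There is a proper closed subset `Z` of this space which contains no complex
hypersurface that is ramified in the direction of `E_j`, and, if `n` is squarefree, no complex
hypersurface that is not covered by elliptic curves in this direction, in particular none of general
type, such that for every number field `K`, all subgroups `Γ_i` of `E_i(K)` with ranks at least one, the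
rank of `Γ_j` at least three, and every hypersurface over `K` outside of `Z`, the tuples in
`Γ_1 × ... × Γ_r` below the `K`-points of the hypersurface are few, by a power of the height bound,
uniformly in the hypersurface.
-/

set_option autoImplicit false
set_option linter.all false

namespace Pool.Agent.Results.MP_2ae8fe_ag.GeneralTypeCyclicSaving

open WeierstrassCurve

/-- the group of `K`-points of the elliptic curve `y ^ 2 = x ^ 3 + a x + b` -/
abbrev E (K : Type) [Field K] (a b : ℤ) : Type :=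
  (⟨0, 0, 0, (a : K), (b : K)⟩ : WeierstrassCurve K).toAffine.Point

/-- homogeneous coordinates: `(0 : 1 : 0)` for the point at infinity, `(x : y : 1)` otherwise -/
def xyz {K : Type} [Field K] {a b : ℤ} : E K a b → Fin 3 → K
  | Affine.Point.zero => ![0, 1, 0]
  | Affine.Point.some x y _ => ![x, y, 1]

/-- the logarithmic height, relative to `K`, of the `x`-coordinate of a point -/
noncomputable def ht {K : Type} [Field K] [NumberField K] {a b : ℤ} : E K a b → ℝ
  | Affine.Point.zero => 0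
  | Affine.Point.some x _ _ => Height.logHeight₁ x

/-- The coefficients `G_0` and `G_1` are homogeneous of degrees `d_i` and `d_i + n c_i` in the
coordinates of the `i`-th curve, for each `i`. -/
def Multihomogeneous {r : ℕ} {R : Type} [CommRing R] (n : ℕ)
    (G : Fin 2 → MvPolynomial (Fin r × Fin 3) R) (c d : Fin r → ℕ) : Prop :=
  ∀ i, (G 0).IsWeightedHomogeneous (fun v => if v.1 = i then 1 else 0) (d i) ∧
    (G 1).IsWeightedHomogeneous (fun v => if v.1 = i then 1 else 0) (d i + n * c i)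

/-- the hypersurface `G_0 w ^ n + G_1 v ^ n = 0` has a point `(w : v)` over the tuple `V` of
coordinates -/
def HasPoint {K : Type} [Field K] {r : ℕ} (n : ℕ) (G : Fin 2 → MvPolynomial (Fin r × Fin 3) K)
    (V : Fin r → Fin 3 → K) : Prop :=
  ∃ w v : K, (w ≠ 0 ∨ v ≠ 0) ∧
    MvPolynomial.aeval (fun u : Fin r × Fin 3 => V u.1 u.2) (G 0) * w ^ n +
      MvPolynomial.aeval (fun u : Fin r × Fin 3 => V u.1 u.2) (G 1) * v ^ n = 0

/-- The closed set `Z` in the space of the coefficients is the set of the common zeros of finitely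
many integral polynomials, whose variables are the pairs of an index `k` and a monomial; the
hypersurface `G` is outside of it. -/
def Off {r : ℕ} {R : Type} [CommRing R]
    (Z : Finset (MvPolynomial (Fin 2 × (Fin r × Fin 3 →₀ ℕ)) ℤ))
    (G : Fin 2 → MvPolynomial (Fin r × Fin 3) R) : Prop :=
  ∃ φ ∈ Z, MvPolynomial.aeval
    (fun x : Fin 2 × (Fin r × Fin 3 →₀ ℕ) => (G x.1).coeff x.2) φ ≠ 0

/-- The complex hypersurface `G_0 w ^ n + G_1 v ^ n = 0` is ramified in the direction of the `j`-th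
factor: there are complex points `V_i = (x_i, y_i)` on the other factors and a formal arc `W` in the
`j`-th factor along which `G_1 G_0 ^ (n - 1)` has a finite order `m` which is not divisible by some
prime divisor `l` of `n`. -/
def Ramified {r : ℕ} (n : ℕ) (a b : Fin r → ℤ) (G : Fin 2 → MvPolynomial (Fin r × Fin 3) ℂ)
    (j : Fin r) : Prop :=
  ∃ (V : Fin r → Fin 3 → ℂ) (W : Fin 3 → PowerSeries ℂ) (m l : ℕ),
    (∀ i, i ≠ j → V i 2 = 1 ∧ V i 1 ^ 2 = V i 0 ^ 3 + a i * V i 0 + b i) ∧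
    W ≠ 0 ∧ W 1 ^ 2 * W 2 = W 0 ^ 3 + (a j : PowerSeries ℂ) * W 0 * W 2 ^ 2 +
      (b j : PowerSeries ℂ) * W 2 ^ 3 ∧
    (MvPolynomial.aeval (fun v : Fin r × Fin 3 =>
      if v.1 = j then W v.2 else PowerSeries.C (V v.1 v.2)) (G 1 * G 0 ^ (n - 1))).order = m ∧
    l.Prime ∧ l ∣ n ∧ ¬ l ∣ m

/-- The complex hypersurface `G_0 w ^ n + G_1 v ^ n = 0` is covered by elliptic curves in the direction
of the `j`-th factor: for all complex points `V_i = (x_i, y_i)` on the other factors there are an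
elliptic curve `y ^ 2 = x ^ 3 + s x + t` over `ℂ`, with function field `F`, and a morphism from it to
the hypersurface, that is a point of the hypersurface over `F`, which is constant with value `V_i` on
the other factors, and whose coordinates `U` on the `j`-th factor are not constant. A hypersurface of
general type is not covered by elliptic curves. -/
def CoveredByEllipticCurves {r : ℕ} (n : ℕ) (a b : Fin r → ℤ)
    (G : Fin 2 → MvPolynomial (Fin r × Fin 3) ℂ) (j : Fin r) : Prop :=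
  ∀ V : Fin r → Fin 3 → ℂ, (∀ i, i ≠ j → V i 2 = 1 ∧ V i 1 ^ 2 = V i 0 ^ 3 + a i * V i 0 + b i) →
    ∃ (s t : ℂ) (F : Type) (_ : Field F) (_ : Algebra ℂ F) (x y : F) (U : Fin 3 → F),
      4 * s ^ 3 + 27 * t ^ 2 ≠ 0 ∧ y ^ 2 = x ^ 3 + algebraMap ℂ F s * x + algebraMap ℂ F t ∧
      Transcendental ℂ x ∧ IntermediateField.adjoin ℂ {x, y} = ⊤ ∧
      U ≠ 0 ∧ U 1 ^ 2 * U 2 = U 0 ^ 3 + (a j : F) * U 0 * U 2 ^ 2 + (b j : F) * U 2 ^ 3 ∧
      HasPoint n (fun k => MvPolynomial.map (algebraMap ℂ F) (G k))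
        (fun i => if i = j then U else fun k => algebraMap ℂ F (V i k)) ∧
      ¬ ∃ (g : F) (γ : Fin 3 → ℂ), ∀ k, U k = g * algebraMap ℂ F (γ k)

/-- For all hypersurfaces `G` of degrees `c, d` over `K` outside of `Z`, whose coefficients have
heights at most `B ^ u`: of the tuples `P` of points of the subgroups `Γ_i` of `E_i(K)` with heights at
most `B`, which are finite in number, at most a proportion of `C B ^ (-e)` is such that the
hypersurface has a `K`-point over `P`. The constant `C` does not depend on `G`. -/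
def UniformSaving (K : Type) [Field K] [NumberField K] [DecidableEq K] {r : ℕ} (n : ℕ)
    (a b : Fin r → ℤ) (c d : Fin r → ℕ)
    (Z : Finset (MvPolynomial (Fin 2 × (Fin r × Fin 3 →₀ ℕ)) ℤ))
    (Γ : ∀ i, AddSubgroup (E K (a i) (b i))) (e u : ℝ) : Prop :=
  ∃ C : ℝ, 0 < C ∧ ∀ B : ℝ, 1 ≤ B →
    {P : ∀ i, E K (a i) (b i) | ∀ i, P i ∈ Γ i ∧ ht (P i) ≤ B}.Finite ∧
    ∀ G : Fin 2 → MvPolynomial (Fin r × Fin 3) K, Multihomogeneous n G c d →
      (∀ k μ, Height.logHeight₁ ((G k).coeff μ) ≤ B ^ u) → Off Z G →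
      ({P : ∀ i, E K (a i) (b i) | (∀ i, P i ∈ Γ i ∧ ht (P i) ≤ B) ∧
        HasPoint n G (fun i => xyz (P i))}.ncard : ℝ) ≤
      C * (B ^ (-e) *
        ({P : ∀ i, E K (a i) (b i) | ∀ i, P i ∈ Γ i ∧ ht (P i) ≤ B}.ncard : ℝ))

theorem disc_of {r : ℕ} {a b : Fin r → ℤ} (hE : ∀ i, 4 * a i ^ 3 + 27 * b i ^ 2 ≠ 0) :
    ∀ i, Pool.Agent.H901R3.MS.Disc (a i : ℚ) (b i : ℚ) := by
  intro i h0
  apply hE i
  have h1 : (4 * (a i : ℚ) ^ 3 + 27 * (b i : ℚ) ^ 2) = 0 := by
    rcases mul_eq_zero.1 h0 with h | h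
    · norm_num at h
    · exact h
  exact_mod_cast h1

theorem MHP_iff {r : ℕ} {R : Type} [CommRing R] (n : ℕ)
    (G : Fin 2 → MvPolynomial (Fin r × Fin 3) R) (c d : Fin r → ℕ) :
    Multihomogeneous n G c d ↔ Pool.Agent.K9h5.W.MHP (n := 1) G (fun i => n * c i) d := by
  constructor
  · intro h k i
    have h1 := h i
    match k with
    | 0 =>
      have h2 : d i + ((0 : Fin (1 + 1)) : ℕ) * (n * c i) = d i := by simp
      rw [h2]
      exact h1.1
    | 1 =>
      have h2 : d i + ((1 : Fin (1 + 1)) : ℕ) * (n * c i) = d i + n * c i := by simp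
      rw [h2]
      exact h1.2
  · intro h i
    have h0 := h 0 i
    have h1 := h 1 i
    have e0 : d i + ((0 : Fin (1 + 1)) : ℕ) * (n * c i) = d i := by simp
    have e1 : d i + ((1 : Fin (1 + 1)) : ℕ) * (n * c i) = d i + n * c i := by simp
    rw [e0] at h0
    rw [e1] at h1
    exact ⟨h0, h1⟩

theorem ht_eq {K : Type} [Field K] [NumberField K] {a b : ℤ} (P : E K a b) :
    ht P = Pool.Agent.K9h5.N.hK (a := (a : K)) (b := (b : K)) P := by
  cases P with
  | zero => exact Pool.Agent.K9h5.N.hK_zero.symm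
  | some x y h => exact (Pool.Agent.K9h5.N.hK_some x y h).symm

theorem xyz_eq {K : Type} [Field K] {a b : ℤ} (P : E K a b) :
    xyz P = Pool.Agent.H901R3.MS.rep (a := (a : K)) (b := (b : K)) P := by
  funext k
  cases P <;> rfl

/-- a point gives an `l`-th root of the radicand -/
theorem root_of {K : Type} [Field K] {n l : ℕ} (hn : 2 ≤ n) (hln : l ∣ n) (g₀ g₁ w v : K)
    (hwv : w ≠ 0 ∨ v ≠ 0) (h : g₀ * w ^ n + g₁ * v ^ n = 0) :
    ∃ x : K, x ^ l = -(g₁ * g₀ ^ (n - 1)) := by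
  obtain ⟨q, hq⟩ := hln
  have hl : ∀ x : K, (x ^ q) ^ l = x ^ n := by
    intro x
    rw [← pow_mul, hq, mul_comm]
  by_cases hv : v = 0
  · have hw : w ≠ 0 := by
      rcases hwv with h1 | h1
      · exact h1
      · exact absurd hv h1
    have h0 : g₀ = 0 := by
      rw [hv, zero_pow (by omega), mul_zero, add_zero] at h
      exact (mul_eq_zero.1 h).resolve_right (pow_ne_zero _ hw)
    refine ⟨0 ^ q, ?_⟩
    rw [hl, h0, zero_pow (by omega : n ≠ 0), zero_pow (by omega : n - 1 ≠ 0), mul_zero, neg_zero]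
  · refine ⟨(g₀ * (w / v)) ^ q, ?_⟩
    rw [hl, mul_pow, div_pow]
    have e1 : g₀ ^ n = g₀ ^ (n - 1) * g₀ := by rw [← pow_succ]; congr 1; omega
    have hvn : v ^ n ≠ 0 := pow_ne_zero _ hv
    rw [e1]
    have h2 : g₀ * w ^ n = -(g₁ * v ^ n) := by linear_combination h
    calc g₀ ^ (n - 1) * g₀ * (w ^ n / v ^ n) = g₀ ^ (n - 1) * (g₀ * w ^ n) / v ^ n := by ring
      _ = g₀ ^ (n - 1) * (-(g₁ * v ^ n)) / v ^ n := by rw [h2]
      _ = -(g₁ * g₀ ^ (n - 1)) := by field_simp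

/-- comparison of the two forms of the counting functions -/
theorem image_eq {K : Type} [Field K] [NumberField K] [DecidableEq K] {r : ℕ} (a b : Fin r → ℤ)
    (Γ : ∀ i, AddSubgroup (E K (a i) (b i))) (B : ℝ) :
    {P : ∀ i, E K (a i) (b i) | ∀ i, P i ∈ Γ i ∧ ht (P i) ≤ B} =
      (fun (P : ∀ i, Γ i) (i : Fin r) => (P i : E K (a i) (b i))) ''
        Pool.Agent.K9h5.N.ABg (fun i (P : Γ i) =>
          Pool.Agent.K9h5.N.hK (a := (a i : K)) (b := (b i : K)) (P : E K (a i) (b i))) B := by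
  ext P
  rw [Set.mem_setOf_eq, Set.mem_image]
  constructor
  · intro h
    refine ⟨fun i => ⟨P i, (h i).1⟩, fun i => ?_, rfl⟩
    have h1 := (h i).2
    rw [ht_eq] at h1
    exact h1
  · rintro ⟨Q, hQ, rfl⟩ i
    refine ⟨(Q i).2, ?_⟩
    rw [ht_eq]
    exact hQ i

theorem inj_sub {K : Type} [Field K] [NumberField K] [DecidableEq K] {r : ℕ} (a b : Fin r → ℤ)
    (Γ : ∀ i, AddSubgroup (E K (a i) (b i))) :
    Function.Injective (fun (P : ∀ i, Γ i) (i : Fin r) => (P i : E K (a i) (b i))) := by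
  intro P Q h
  funext i
  exact Subtype.ext (congrFun h i)

theorem exc_sub {K : Type} [Field K] [NumberField K] [DecidableEq K] {r n l : ℕ} (hn : 2 ≤ n)
    (hln : l ∣ n) (a b : Fin r → ℤ) (Γ : ∀ i, AddSubgroup (E K (a i) (b i)))
    (G : Fin 2 → MvPolynomial (Fin r × Fin 3) K) (B : ℝ) :
    {P : ∀ i, E K (a i) (b i) | (∀ i, P i ∈ Γ i ∧ ht (P i) ≤ B) ∧
        HasPoint n G (fun i => xyz (P i))} ⊆
      (fun (P : ∀ i, Γ i) (i : Fin r) => (P i : E K (a i) (b i))) ''
        Pool.Agent.K9h5.C.ExcH K n l a b Γ G B := by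
  rintro P ⟨hP, w, v, hwv, h⟩
  refine ⟨fun i => ⟨P i, (hP i).1⟩, ⟨fun i => ?_, ?_⟩, rfl⟩
  · have h1 := (hP i).2
    rw [ht_eq] at h1
    exact h1
  · obtain ⟨x, hx⟩ := root_of hn hln _ _ w v hwv h
    refine ⟨x, ?_⟩
    rw [hx]
    unfold Pool.Agent.K9h5.C.rad
    simp only [xyz_eq, MvPolynomial.aeval_eq_eval]
    rw [map_neg, map_mul, map_pow]

/-- a hypersurface which is not covered by elliptic curves is ramified -/
theorem ramified_of {r : ℕ} (a b : Fin r → ℤ) (hE : ∀ i, 4 * a i ^ 3 + 27 * b i ^ 2 ≠ 0) (n : ℕ)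
    (hn : 2 ≤ n) (hsq : Squarefree n) (G : Fin 2 → MvPolynomial (Fin r × Fin 3) ℂ) (j : Fin r)
    (hG : ¬ CoveredByEllipticCurves n a b G j) : Ramified n a b G j := by
  classical
  by_contra hR
  apply hG
  intro V hV
  by_contra h2
  have hG' : Pool.Agent.K9h5.G.NoEllAt n (fun i => (a i : ℂ)) (fun i => (b i : ℂ)) G j V := by
    intro s t hst F iF iA x y hxy hx hadj U w v hU hUE hwv h0
    by_contra hc
    apply h2
    have htup : (fun u : Fin r × Fin 3 => (if u.1 = j then U else fun k => algebraMap ℂ F (V u.1 k)) u.2) =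
        Pool.Agent.K9h5.G.tup (algebraMap ℂ F) V j U := by
      funext u
      unfold Pool.Agent.K9h5.G.tup
      split_ifs <;> rfl
    refine ⟨s, t, F, iF, iA, x, y, U, hst, hxy, hx, hadj, hU, ?_, ⟨w, v, hwv, ?_⟩, hc⟩
    · have h1 := hUE
      rw [map_intCast, map_intCast] at h1
      exact h1
    · rw [MvPolynomial.aeval_map_algebraMap, MvPolynomial.aeval_map_algebraMap, htup]
      exact h0
  have hD := disc_of hE
  obtain ⟨S, hS⟩ := Pool.Agent.K9h5.G.exists_inf (a j) (b j) (hD j)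
  obtain ⟨X', Y', m, l, h, hord, hl, hln, hlm⟩ := Pool.Agent.K9h5.G.ram_at (by omega : 1 ≤ n)
    hsq (fun i => (a i : ℂ)) (fun i => (b i : ℂ)) G j V hG'
    (Pool.Agent.K9h5.N.disc_int (a j) (b j) (hD j)) S hS
  apply hR
  refine ⟨V, ![X', Y', 1], m, l, hV, fun h0 => one_ne_zero (congrFun h0 2),
    Pool.Agent.K9h5.G.eqn_triple h (map_intCast _ _) (map_intCast _ _), ?_, hl, hln, hlm⟩
  rw [← hord]
  rfl

/-- **Rational points on ramified cyclic covers of products of elliptic curves.** -/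
theorem result (r : ℕ) (a b : Fin r → ℤ) (hE : ∀ i, 4 * a i ^ 3 + 27 * b i ^ 2 ≠ 0)
    (n : ℕ) (hn : 2 ≤ n) (c d : Fin r → ℕ) (j : Fin r) (hcd : 1 ≤ c j + d j) :
    ∃ Z : Finset (MvPolynomial (Fin 2 × (Fin r × Fin 3 →₀ ℕ)) ℤ),
      (∃ G : Fin 2 → MvPolynomial (Fin r × Fin 3) ℂ, Multihomogeneous n G c d ∧
        (d = 0 → G 0 = 1) ∧ Off Z G) ∧
      (∀ G : Fin 2 → MvPolynomial (Fin r × Fin 3) ℂ, Multihomogeneous n G c d →
        Ramified n a b G j ∨ (Squarefree n ∧ ¬ CoveredByEllipticCurves n a b G j) → Off Z G) ∧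
      ∀ (K : Type) [Field K] [NumberField K] [DecidableEq K]
        (Γ : ∀ i, AddSubgroup (E K (a i) (b i))),
        (∀ i, 1 ≤ Module.finrank ℤ (Γ i)) → 3 ≤ Module.finrank ℤ (Γ j) →
          UniformSaving K n a b c d Z Γ (1 / 300) (33 / 200) := by
  classical
  have hD := disc_of hE
  have hun : ∀ l : n.primeFactors, ∃ Z : Finset (MvPolynomial (Pool.Agent.K9h5.W.IxP r 1) ℤ),
      (∀ G : Fin (1 + 1) → MvPolynomial (Fin r × Fin 3) ℂ,
        Pool.Agent.K9h5.W.MHP G (fun i => n * c i) d → Pool.Agent.K9h5.C.RamC n (l : ℕ) a b G j →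
        ∃ φ ∈ Z, MvPolynomial.aeval (Pool.Agent.K9h5.W.coP G) φ ≠ 0) ∧
      ∀ φ ∈ Z, Pool.Agent.K9h5.C.SavC n (l : ℕ) a b c d j φ := by
    intro l
    have h1 := Nat.mem_primeFactors.1 l.2
    exact Pool.Agent.K9h5.C.univC_fam (by omega) h1.1 h1.2.1 a b hD c d j
  choose Zl hZ1 hZ2 using hun
  obtain ⟨Z, hZ⟩ : ∃ Z : Finset (MvPolynomial (Fin 2 × (Fin r × Fin 3 →₀ ℕ)) ℤ),
      Z = Finset.univ.biUnion Zl := ⟨_, rfl⟩
  have hoff : ∀ G : Fin 2 → MvPolynomial (Fin r × Fin 3) ℂ, Multihomogeneous n G c d →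
      ∀ l : ℕ, l.Prime → l ∣ n → Pool.Agent.K9h5.C.RamC n l a b G j → Off Z G := by
    intro G hG l hl hln hR
    have hmem : l ∈ n.primeFactors := Nat.mem_primeFactors.2 ⟨hl, hln, by omega⟩
    obtain ⟨φ, hφ, h⟩ := hZ1 ⟨l, hmem⟩ G ((MHP_iff n G c d).1 hG) hR
    refine ⟨φ, ?_, h⟩
    rw [hZ]
    exact Finset.mem_biUnion.2 ⟨⟨l, hmem⟩, Finset.mem_univ _, hφ⟩
  have hex : ∃ G : Fin 2 → MvPolynomial (Fin r × Fin 3) ℂ, Multihomogeneous n G c d ∧
      (d = 0 → G 0 = 1) ∧ Off Z G := by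
    obtain ⟨G, hG, hG1, hR⟩ := Pool.Agent.K9h5.C.exists_RamC (n := n) (by omega) a b c d j hcd
    have hG' := (MHP_iff n G c d).2 hG
    refine ⟨G, hG', hG1, hoff G hG' n.minFac (Nat.minFac_prime (by omega)) (Nat.minFac_dvd n)
      (hR _ (Nat.minFac_prime (by omega)))⟩
  refine ⟨Z, hex, ?_, ?_⟩
  · intro G hG hor
    have hram : Ramified n a b G j := by
      rcases hor with h | ⟨hsq, hN⟩
      · exact h
      · exact ramified_of a b hE n hn hsq G j hN
    obtain ⟨V, W, m, l, haff, hW0, hWE, hord, hl, hln, hlm⟩ := hram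
    refine hoff G hG l hl hln ⟨V, W, m, haff, hW0, hWE, ?_, hlm⟩
    rw [← hord]
    unfold Pool.Agent.K9h5.C.rad
    rw [MvPolynomial.eval₂_neg, PowerSeries.order_neg]
    rfl
  intro K _ _ _ Γ h1 h3
  have hsmall : ∀ φ ∈ Z, ∃ l : ℕ, l ∣ n ∧ Pool.Agent.K9h5.C.SavC n l a b c d j φ := by
    intro φ hφ
    rw [hZ] at hφ
    obtain ⟨l, _, hl⟩ := Finset.mem_biUnion.1 hφ
    exact ⟨l, (Nat.mem_primeFactors.1 l.2).2.1, hZ2 l φ hl⟩
  choose! lf hlf hsav using hsmall
  obtain ⟨C, hC⟩ : ∃ C : MvPolynomial (Fin 2 × (Fin r × Fin 3 →₀ ℕ)) ℤ → ℝ, ∀ φ ∈ Z,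
      0 < C φ ∧ ∀ B : ℝ, 1 ≤ B → (Pool.Agent.K9h5.N.ABg (fun i (P : Γ i) =>
        Pool.Agent.K9h5.N.hK (a := (a i : K)) (b := (b i : K)) (P : E K (a i) (b i))) B).Finite ∧
        ∀ G : Fin (1 + 1) → MvPolynomial (Fin r × Fin 3) K,
          Pool.Agent.K9h5.W.MHP G (fun i => n * c i) d →
          (∀ x, Height.logHeight₁ (Pool.Agent.K9h5.W.coP G x) ≤ B ^ (33 / 200 : ℝ)) →
          MvPolynomial.aeval (Pool.Agent.K9h5.W.coP G) φ ≠ 0 →
          ((Pool.Agent.K9h5.C.ExcH K n (lf φ) a b Γ G B).ncard : ℝ) ≤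
          C φ * (B ^ (-(1 / 300) : ℝ) * ((Pool.Agent.K9h5.N.ABg (fun i (P : Γ i) =>
            Pool.Agent.K9h5.N.hK (a := (a i : K)) (b := (b i : K)) (P : E K (a i) (b i)))
              B).ncard : ℝ)) := by
    refine ⟨fun φ => if h : φ ∈ Z then ((hsav φ h K Γ).2 h1 h3).choose else 0, fun φ hφ => ?_⟩
    have h5 := ((hsav φ hφ K Γ).2 h1 h3).choose_spec
    simp only [dif_pos hφ]
    exact h5
  have hZne : Z.Nonempty := by
    obtain ⟨G, _, _, φ, hφ, _⟩ := hex
    exact ⟨φ, hφ⟩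
  refine ⟨∑ φ ∈ Z, C φ, Finset.sum_pos (fun φ hφ => (hC φ hφ).1) hZne, ?_⟩
  intro B hB
  have hinj := inj_sub a b Γ
  rw [image_eq, Set.ncard_image_of_injective _ hinj]
  constructor
  · obtain ⟨φ, hφ⟩ := hZne
    exact ((hC φ hφ).2 B hB).1.image _
  · rintro G hG hh ⟨φ, hφ, hne⟩
    have hfin := ((hC φ hφ).2 B hB).1
    have hfin2 : (Pool.Agent.K9h5.C.ExcH K n (lf φ) a b Γ G B).Finite :=
      hfin.subset (fun P hP => hP.1)
    refine le_trans (Nat.cast_le.2 (Set.ncard_le_ncard (exc_sub hn (hlf φ hφ) a b Γ G B)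
      (hfin2.image _))) ?_
    refine le_trans (le_of_eq (congrArg _ (Set.ncard_image_of_injective _ hinj))) ?_
    refine (((hC φ hφ).2 B hB).2 G ((MHP_iff n G c d).1 hG) (fun x => hh x.1 x.2) hne).trans ?_
    refine mul_le_mul_of_nonneg_right ?_ (by positivity)
    exact Finset.single_le_sum (f := C) (fun φ hφ => (hC φ hφ).1.le) hφ

end Pool.Agent.Results.MP_2ae8fe_ag.GeneralTypeCyclicSaving
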