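import Pool.Agent.K9h36.LG.Dim

/-!
# Lang's conjecture on rational points is a question on smooth hypersurfaces

Let `K` be a field with an embedding in `ℂ`, for example `K = ℚ`, and `r ≥ 1`. The following are
equivalent, for every infinite set of exponents `D`:

* (Q1 over `K`, in dimension at least `r`) for all projective varieties `X` of general type over `K`, of
  dimension at least `r` and with arbitrary singularities, `X(K)` is not Zariski dense in `X`;
* for all smooth hypersurfaces `Y : ∑ t, Q_t(y) (y_0 + t y_1 + ⋯ + t^N y_N)^D = 0` in `P^N`, with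
  quadratic forms `Q_t` over `K`, `t < N (2 N + 1)`, and `D ≥ D₁(N)`, no irreducible component of
  dimension at least `r` of the Zariski closure of `Y(K)` is of general type.

The case `r = 1` is Q1 for all projective varieties of positive dimension, the case `r = 2` is the
part which is left by Faltings' theorem.

The proof uses the smooth hypersurfaces through `v(X)`, `v` a Veronese embedding, such that all closed
subvarieties of positive dimension which are not contained in `v(X)` are of general type.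
-/

set_option autoImplicit false

namespace Pool.Agent.Results.MP_2ae8fe_ag.SmoothHypersurfacesSuffice

open MvPolynomial
open Pool.Agent.W602.GT (SubVar GeneralType coords)
open Pool.Agent.N254.SQ (IsForm Component GenericPoint SmoothOver powerFormOver Gen)

/-- Q1 over `K` for all projective varieties of dimension at least `r`: if the projective variety
`V(S)` over `K`, of dimension `w ≥ r`, with function field `L` over `ℂ` and generic point `y`, is of
general type, then some form over `K` which does not vanish on it vanishes at all its `K`-rational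
points. -/
def WeakLang (K : Type) [Field K] [Algebra K ℂ] (r : ℕ) : Prop :=
  ∀ (n : ℕ) (S : Set (MvPolynomial (Fin (n + 1)) K)) (L : Type) [Field L] [Algebra ℂ L] (w : ℕ)
    (y : Fin (n + 1) → L), (∀ p ∈ S, ∃ e, p.IsHomogeneous e) → r ≤ w → GenericPoint S L w y →
    GeneralType ℂ L w → ∃ R : MvPolynomial (Fin (n + 1)) K, (∃ e, R.IsHomogeneous e) ∧
      aeval y (map (algebraMap K ℂ) R) ≠ 0 ∧
      ∀ x : Fin (n + 1) → K, x ≠ 0 → (∀ p ∈ S, eval x p = 0) → eval x R = 0

/-- the complex polynomial `G` vanishes at the `K`-rational points of the hypersurface `A = 0` -/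
def AtPoints {K : Type} [Field K] [Algebra K ℂ] {N : ℕ} (A : MvPolynomial (Fin (N + 1)) K)
    (G : MvPolynomial (Fin (N + 1)) ℂ) : Prop :=
  ∀ x : Fin (N + 1) → K, x ≠ 0 → eval x A = 0 → eval (fun j => algebraMap K ℂ (x j)) G = 0

/-- no irreducible component of dimension at least `r` of the Zariski closure of the set of
`K`-rational points of the hypersurface `A = 0` is of general type -/
def NoGeneralType {K : Type} [Field K] [Algebra K ℂ] (r : ℕ) {N : ℕ}
    (A : MvPolynomial (Fin (N + 1)) K) : Prop :=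
  ∀ (L : Type) [Field L] [Algebra ℂ L] (w : ℕ) (y : Fin (N + 1) → L), r ≤ w → Gen L w y →
    Component (AtPoints A) y → ¬ GeneralType ℂ L w

section proof

open Pool.Agent.N254.SQ (Idl Good Mon ver pull pull_hom eval_pull ver_ne_zero Eqs)
open Pool.Agent.K9h36.LG

theorem idl {K : Type} [Field K] [Algebra K ℂ] {N : ℕ} (A : MvPolynomial (Fin (N + 1)) K) :
    Idl (AtPoints A) where
  zero := fun x _ _ => map_zero _
  add := fun e G G' _ _ h h' x hx hA => by
    rw [map_add, h x hx hA, h' x hx hA, add_zero]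
  mul := fun G F _ _ h x hx hA => by
    rw [map_mul, h x hx hA, zero_mul]
  rad := fun G r _ h x hx hA => by
    have h2 := h x hx hA
    rw [map_pow] at h2
    by_contra h1
    exact pow_ne_zero r h1 h2

theorem ver_emb {K : Type} [Field K] [Algebra K ℂ] {n N : ℕ} (m : Fin (N + 1) → Fin (n + 1) → ℕ)
    (x : Fin (n + 1) → K) :
    ver m (fun j => algebraMap K ℂ (x j)) = fun a => algebraMap K ℂ (ver m x a) := by
  funext a
  unfold ver
  rw [map_prod]
  exact Finset.prod_congr rfl fun j _ => (map_pow _ _ _).symm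

theorem backward {D₁ : ℕ → ℕ} (H : Hyp D₁) (K : Type) [Field K] [Algebra K ℂ] {r : ℕ} (hr : 1 ≤ r)
    (E : Set ℕ) (hE : E.Infinite)
    (h : ∀ (N D : ℕ) (Q : Fin (N * (2 * N + 1)) → MvPolynomial (Fin (N + 1)) K), D ∈ E →
      D₁ N ≤ D → (∀ t, (Q t).IsHomogeneous 2) → SmoothOver (powerFormOver D Q) →
      NoGeneralType r (powerFormOver D Q)) : WeakLang K r := by
  intro n S L _ _ w y hS hrw hy hGT
  have hw : 1 ≤ w := hr.trans hrw
  have hn : 1 ≤ n := dim_pos hy.sub.gen hy.sub.dim hw
  obtain ⟨T, d, N, D, m, Q, hTS, hD, hD1, hQ, hsm, hv, hg⟩ := H K n S hn hS E hE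
  have hyS : ∀ p ∈ S, aeval y (map (algebraMap K ℂ) p) = 0 := fun p hp => hy.sub.mem ⟨p, hp⟩
  have hyT := (hTS L y).2 hyS
  obtain ⟨G, hG, hGI, hGy⟩ := key hg hw hrw
    ⟨hy.sub.ne, fun p => hyT p p.2, hy.sub.gen, hy.sub.dim⟩ hGT
    (by
      intro Ω _ _ x hx _ G hG hGy
      refine null (C := ℂ) (map (algebraMap K ℂ) '' T) G (fun z hz => ?_) Ω x hx
      exact hy.all G hG hGy z fun p hp => by
        have h1 := (hTS ℂ z).1 hz p hp
        rw [aeval_def, eval₂_map] at h1
        exact h1)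
    (idl (powerFormOver D Q))
    (by
      intro x _ hxA
      rw [eval_emb, hxA, map_zero])
    (fun L' _ _ w' y' _ hrw' hy' hcomp => h N D Q hD hD1 hQ hsm L' w' y' hrw' hy' hcomp)
  obtain ⟨e, he⟩ := hG
  obtain ⟨r, b, g, hg1, hg2, hg3⟩ := desc {x : Fin (n + 1) → K | x ≠ 0 ∧ ∀ p ∈ S, eval x p = 0}
    (pull m G) (by
      rintro x ⟨hx, hxS⟩
      rw [eval_pull, ver_emb]
      exact hGI _ (ver_ne_zero hg.mon hg.deg hx) (hv x hxS))
  obtain ⟨i, hi⟩ : ∃ i, aeval y (map (algebraMap K ℂ) (g i)) ≠ 0 := by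
    by_contra hcon
    push Not at hcon
    apply hGy
    rw [hg3, map_sum]
    exact Finset.sum_eq_zero fun i _ => by rw [map_mul, hcon i, mul_zero]
  exact ⟨g i, ⟨_, hg1 i _ (pull_hom hg.mon he)⟩, hi, fun x hx hxS => hg2 i x ⟨hx, hxS⟩⟩

theorem forward {K : Type} [Field K] [Algebra K ℂ] {r : ℕ} (h : WeakLang K r) {N : ℕ}
    (A : MvPolynomial (Fin (N + 1)) K) : NoGeneralType r A := by
  rintro L _ _ w y hw hy ⟨hc1, H, hH, hHy, hc2⟩ hGT
  obtain ⟨T, hT⟩ : ∃ T : Set (Fin (N + 1) → K), T = {x | x ≠ 0 ∧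
    ∀ F ∈ Eqs y, eval (fun j => algebraMap K ℂ (x j)) F = 0} := ⟨_, rfl⟩
  have dense : ∀ G, IsForm G → (aeval y G = 0 ↔
      ∀ x ∈ T, eval (fun j => algebraMap K ℂ (x j)) G = 0) := by
    intro G hG
    constructor
    · intro h0 x hx
      rw [hT] at hx
      exact hx.2 G ⟨hG, h0⟩
    · intro h0
      obtain ⟨e, he⟩ := id hG
      obtain ⟨e', he'⟩ := id hH
      have h1 : AtPoints A (G * H) := by
        intro x hx hxA
        rw [map_mul]
        by_cases hHx : eval (fun j => algebraMap K ℂ (x j)) H = 0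
        · rw [hHx, mul_zero]
        have hxT : x ∈ T := by
          rw [hT]
          refine ⟨hx, fun F hF => ?_⟩
          have h2 := hc2 F hF.1 hF.2 x hx hxA
          rw [map_mul, mul_eq_zero] at h2
          exact h2.resolve_right hHx
        rw [h0 x hxT, zero_mul]
      have h2 := hc1 (G * H) ⟨_, he.mul he'⟩ h1
      rw [map_mul, mul_eq_zero] at h2
      exact h2.resolve_right hHy
  obtain ⟨S, hS⟩ : ∃ S : Set (MvPolynomial (Fin (N + 1)) K), S = {p | (∃ e, p.IsHomogeneous e) ∧
    ∀ x ∈ T, eval x p = 0} := ⟨_, rfl⟩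
  have hSy : ∀ p ∈ S, aeval y (map (algebraMap K ℂ) p) = 0 := by
    intro p hp
    rw [hS] at hp
    obtain ⟨⟨e, he⟩, hp2⟩ := hp
    rw [dense _ ⟨e, he.map _⟩]
    intro x hx
    rw [eval_emb, hp2 x hx, map_zero]
  have hgen : GenericPoint S L w y := by
    refine ⟨⟨hy.ne, fun p => hSy p p.2, hy.gen, hy.dim⟩, ?_⟩
    rintro G ⟨e, he⟩ hGy x hx
    obtain ⟨r, b, g, hg1, hg2, hg3⟩ := desc T G ((dense G ⟨e, he⟩).1 hGy)
    rw [hg3, map_sum]
    refine Finset.sum_eq_zero fun i _ => ?_
    have h1 := hx (g i) (by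
      rw [hS]
      exact ⟨⟨e, hg1 i e he⟩, hg2 i⟩)
    rw [map_mul, eval_map]
    rw [aeval_def] at h1
    rw [h1, mul_zero]
  obtain ⟨R, ⟨e, he⟩, hRy, hR⟩ := h N S L w y (by
    intro p hp
    rw [hS] at hp
    exact hp.1) hw hgen hGT
  apply hRy
  rw [dense _ ⟨e, he.map _⟩]
  intro x hx
  have hx0 : x ≠ 0 := by
    rw [hT] at hx
    exact hx.1
  rw [eval_emb, hR x hx0 (fun p hp => by
    rw [hS] at hp
    exact hp.2 x hx), map_zero]

end proof

theorem result : ∃ D₁ : ℕ → ℕ, ∀ (K : Type) [Field K] [Algebra K ℂ] (r : ℕ) (E : Set ℕ), 1 ≤ r →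
    E.Infinite →
    (WeakLang K r ↔
      ∀ (N D : ℕ) (Q : Fin (N * (2 * N + 1)) → MvPolynomial (Fin (N + 1)) K), D ∈ E → D₁ N ≤ D →
        (∀ t, (Q t).IsHomogeneous 2) → SmoothOver (powerFormOver D Q) →
        NoGeneralType r (powerFormOver D Q)) := by
  obtain ⟨D₁, H⟩ := Pool.Agent.K9h36.LG.t_hyp
  exact ⟨D₁, fun K _ _ r E hr hE => ⟨fun h N D Q _ _ _ _ => forward h _,
    fun h => backward H K hr E hE h⟩⟩

end Pool.Agent.Results.MP_2ae8fe_ag.SmoothHypersurfacesSuffice
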