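import Pool.Agent.K9h36.LG.SpE

/-!
# Smooth hypersurfaces through any projective variety `X` with few algebraic points outside of `X`

Let `v : P^n → P^N` be the Veronese embedding of degree `d ≥ 3`, `L = N (2 N + 1)`, and let `κ`, `A`,
`E` and `ε > 0` be given. For a projective variety `X` in `P^n` over a number field `k`, given by forms
of degree at most `d` (any dimension, any singularities), there are quadratic forms `q_i` over `k` with
common zeros `v(X)`, and we consider the hypersurfaces through `v(X)`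

`Y_c : ∑ t < L, (∑ i, c_{t,i} q_i(y)) (y_0 + t y_1 + ⋯ + t^N y_N)^D = 0` in `P^N`, `D ≥ R`.

* For general `c` the hypersurface `Y_c` is smooth, all its closed subvarieties of positive dimension
  which are not contained in `v(X)` are of general type (in particular `Y_c` itself), and `v(X)`
  contains all nonconstant entire curves in `Y_c(ℂ)`. So Lang's conjecture says that `Y_c(K) - v(X)(K)`
  is finite for all number fields `K`.
* For all `B ≥ 1` there are at most `B^ε` points of `P^N(ℂ)` which are points of `Y - v(X)` of degree at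
  most `κ` over `ℚ` and of absolute height at most `B`, for ALL number fields, ALL varieties `X`, ALL
  exponents `D` from `R` to `B^δ` and ALL such hypersurfaces `Y` with coefficients of absolute height
  at most `B^E` together.
* For all but the proportion `T^(ε-1)` of the integral vectors `c` of absolute value at most `T`, the
  hypersurface `Y_c` has no point of degree at most `κ` over `ℚ` and of height at most `T^A` outside of
  `v(X)`.

The proof combines the hypersurfaces of project SQ with the determinant method for algebraic points of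
bounded degree: outside of `v(X)` there are no `2 N + 1` disjoint vanishing subsums, so that the linear
spaces which cover the solutions of the twisted equations `∑ s_t l_t(y)^D = 0`, `s_t = Q_t(y)`, are
points.
-/

set_option autoImplicit false

namespace Pool.Agent.Results.MP_2ae8fe_ag.SparseOffAnyVariety

open MvPolynomial Height
open Pool.Agent.W602.GT (SubVar GeneralType)
open Pool.Agent.N254.SQ (SmoothOver powerFormOver Monomials veronese)

/-- `y` is a vector of homogeneous coordinates, in the extension `Ω` of `k`, of a point of `v(X)`,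
where `X` is given by the forms `F i` over `k` and `v` by the exponent vectors `m` -/
def OnVer {k : Type} [Field k] {n N s : ℕ} (m : Fin (N + 1) → Fin (n + 1) → ℕ)
    (F : Fin s → MvPolynomial (Fin (n + 1)) k) {Ω : Type} [Field Ω] [Algebra k Ω]
    (y : Fin (N + 1) → Ω) : Prop :=
  ∃ (x : Fin (n + 1) → Ω) (c : Ω), x ≠ 0 ∧ c ≠ 0 ∧ (∀ i, aeval x (F i) = 0) ∧ y = c • veronese m x

/-- The hypersurface `Y : ∑ t, Q_t(y) l_t(y) ^ D = 0`, `l_t(y) = y_0 + t y_1 + ⋯ + t ^ N y_N`, with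
quadratic forms `Q_t` over `k`, is adapted to `X`: only the points of `v(X)` have, over some extension
of `k`, `2 N + 1` disjoint nonempty vanishing subsums. -/
structure Adapted {k : Type} [Field k] {n N s M : ℕ} (m : Fin (N + 1) → Fin (n + 1) → ℕ)
    (F : Fin s → MvPolynomial (Fin (n + 1)) k) (D : ℕ)
    (Q : Fin M → MvPolynomial (Fin (N + 1)) k) : Prop where
  quadratic : ∀ t, (Q t).IsHomogeneous 2
  blocks : ∀ (Ω : Type) [Field Ω] [Algebra k Ω] (y : Fin (N + 1) → Ω)
    (𝓑 : Finset (Finset (Fin M))), y ≠ 0 → (∀ B ∈ 𝓑, B.Nonempty) →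
    (∀ B ∈ 𝓑, ∀ B' ∈ 𝓑, B ≠ B' → Disjoint B B') → 2 * N + 1 ≤ 𝓑.card →
    (∀ B ∈ 𝓑, ∑ t ∈ B, aeval y (Q t) * (∑ j : Fin (N + 1), ((t : ℕ) : Ω) ^ (j : ℕ) * y j) ^ D = 0) →
    OnVer m F y

/-- `Y` is adapted and smooth, contains `v(X)`, and has the predicted geometry over `ℂ` outside of
`v(X)` -/
structure Nice {k : Type} [Field k] {n N s M : ℕ} (m : Fin (N + 1) → Fin (n + 1) → ℕ)
    (F : Fin s → MvPolynomial (Fin (n + 1)) k) (D : ℕ)
    (Q : Fin M → MvPolynomial (Fin (N + 1)) k) : Prop where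
  adapted : Adapted m F D Q
  smooth : SmoothOver (powerFormOver D Q)
  /-- `Y` contains `v(X)` -/
  contains : ∀ (Ω : Type) [Field Ω] [Algebra k Ω] (x : Fin (n + 1) → Ω),
    (∀ i, aeval x (F i) = 0) → aeval (veronese m x) (powerFormOver D Q) = 0
  /-- each closed subvariety of positive dimension of `Y` over `ℂ`, with function field `L` and generic
  point `y`, is of general type or contained in `v(X)` -/
  subvarieties : ∀ (σ : k →+* ℂ) (L : Type) [Field L] [Algebra ℂ L] (w : ℕ)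
    (y : Fin (N + 1) → L), 1 ≤ w → SubVar (fun _ : Unit => map σ (powerFormOver D Q)) L w y →
    GeneralType ℂ L w ∨ OnVer m (fun i => map σ (F i)) y
  /-- each entire curve in `Y(ℂ)` is constant or contained in `v(X)` -/
  curves : ∀ (σ : k →+* ℂ) (f : ℂ → Fin (N + 1) → ℂ), (∀ j, Differentiable ℂ fun z => f z j) →
    (∀ z, f z ≠ 0) → (∀ z, eval (f z) (map σ (powerFormOver D Q)) = 0) →
    (∀ z w, ∃ c : ℂ, f w = c • f z) ∨ ∀ z, OnVer m (fun i => map σ (F i)) (f z)

/-- the points of `P ^ N (ℂ)` (lines in `ℂ ^ (N + 1)`) of degree at most `κ` over `ℚ` and of absolute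
height at most `B` outside of `v(X)` on some hypersurface `Y` adapted to some `X`, with an exponent `D`
from `R` to `B ^ δ` and coefficients of absolute height at most `B ^ E` -/
def Points {n N : ℕ} (m : Fin (N + 1) → Fin (n + 1) → ℕ) (κ E R : ℕ) (δ : ℝ) (B : ℕ) :
    Set (Submodule ℂ (Fin (N + 1) → ℂ)) :=
  {P | ∃ (K : Type) (_ : Field K) (_ : NumberField K) (σ : K →+* ℂ) (s D : ℕ)
    (F : Fin s → MvPolynomial (Fin (n + 1)) K)
    (Q : Fin (N * (2 * N + 1)) → MvPolynomial (Fin (N + 1)) K) (y : Fin (N + 1) → K),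
    Module.finrank ℚ K ≤ κ ∧ R ≤ D ∧ (D : ℝ) ≤ (B : ℝ) ^ δ ∧ Adapted m F D Q ∧
    (∀ t α, mulHeight₁ (coeff α (Q t)) ≤ ((B : ℝ) ^ E) ^ Module.finrank ℚ K) ∧
    y ≠ 0 ∧ eval y (powerFormOver D Q) = 0 ∧ ¬ OnVer m F y ∧
    mulHeight y ≤ (B : ℝ) ^ Module.finrank ℚ K ∧ P = Submodule.span ℂ {fun j => σ (y j)}}

/-- no points of degree at most `κ` over `ℚ` and of absolute height at most `H` on `Y` outside of
`v(X)` -/
def NoPoints {k : Type} [Field k] {n N s M : ℕ} (m : Fin (N + 1) → Fin (n + 1) → ℕ)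
    (F : Fin s → MvPolynomial (Fin (n + 1)) k) (D : ℕ)
    (Q : Fin M → MvPolynomial (Fin (N + 1)) k) (κ H : ℕ) : Prop :=
  ∀ (K : Type) [Field K] [NumberField K] [Algebra k K] (y : Fin (N + 1) → K),
    Module.finrank ℚ K ≤ κ → y ≠ 0 → aeval y (powerFormOver D Q) = 0 →
    mulHeight y ≤ (H : ℝ) ^ Module.finrank ℚ K → OnVer m F y

/-- the quadratic forms `∑ i, c_{t,i} q_i` -/
noncomputable def comb {k : Type} [Field k] {N L M : ℕ} (q : Fin M → MvPolynomial (Fin (N + 1)) k)
    (c : Fin L × Fin M → k) (t : Fin L) : MvPolynomial (Fin (N + 1)) k := ∑ i, C (c (t, i)) * q i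

/-- **Smooth hypersurfaces of general type through any variety, with few algebraic points outside.** -/
theorem result (n d κ A E : ℕ) (hn : 1 ≤ n) (hd : 3 ≤ d) (ε : ℝ) (hε : 0 < ε) :
    ∃ (N : ℕ) (m : Fin (N + 1) → Fin (n + 1) → ℕ) (R : ℕ) (δ : ℝ), Monomials n N d m ∧ 0 < δ ∧
      (∀ B : ℕ, 1 ≤ B → (Points m κ E R δ B).Finite ∧
        ((Points m κ E R δ B).ncard : ℝ) ≤ (B : ℝ) ^ ε) ∧
      ∀ (k : Type) [Field k] [NumberField k] (s : ℕ) (F : Fin s → MvPolynomial (Fin (n + 1)) k),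
        (∀ i, ∃ e ≤ d, (F i).IsHomogeneous e) → ∀ D : ℕ, R ≤ D →
        ∃ (M : ℕ) (q : Fin M → MvPolynomial (Fin (N + 1)) k), (∀ i, (q i).IsHomogeneous 2) ∧
          (∀ (Ω : Type) [Field Ω] [Algebra k Ω] (y : Fin (N + 1) → Ω), y ≠ 0 →
            ((∀ i, aeval y (q i) = 0) ↔ OnVer m F y)) ∧
          (∃ Δ : MvPolynomial (Fin (N * (2 * N + 1)) × Fin M) k, Δ ≠ 0 ∧
            ∀ c, eval c Δ ≠ 0 → Nice m F D (comb q c)) ∧
          ∃ T₀ : ℕ, ∀ T : ℕ, T₀ ≤ T →
            ({c : Fin (N * (2 * N + 1)) × Fin M → ℤ | (∀ p, |c p| ≤ T) ∧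
              ¬ (Nice m F D (comb q fun p => (c p : k)) ∧
                NoPoints m F D (comb q fun p => (c p : k)) κ (T ^ A))}.ncard : ℝ) ≤
              (T : ℝ) ^ (ε - 1) * ((2 * T + 1 : ℕ) : ℝ) ^ (N * (2 * N + 1) * M) := by
  classical
  obtain ⟨N, m, hm, hN, H⟩ := Pool.Agent.K9h36.LG.exists_blk n d hn hd
  have hN1 : 1 ≤ N := by omega
  obtain ⟨R₁, δ, hδ, H₁⟩ := Pool.Agent.K9h36.LG.sparse N κ E hN1 ε hε
  obtain ⟨R₂, H₂⟩ := Pool.Agent.K9h36.LG.almost_all N κ A hN1 ε hε
  obtain ⟨R₃, H₃⟩ := Pool.Agent.K9h36.LG.special_of_blk N hN1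
  obtain ⟨R₄, H₄⟩ := Pool.Agent.K9h36.LG.curves_of_blk N hN1
  refine ⟨N, m, max (max (max R₁ R₂) (max R₃ R₄)) 1, δ, ⟨hm.deg, hm.inj, hm.surj⟩, hδ, ?_, ?_⟩
  · intro B hB
    obtain ⟨T, hT1, hT2⟩ := H₁ B hB
    have hsub : Points m κ E (max (max (max R₁ R₂) (max R₃ R₄)) 1) δ B ⊆ (T : Set _) := by
      rintro P ⟨K, _, _, σ, s, D, F, Q, y, h1, h2, h3, h4, h5, h6, h7, h8, h9, rfl⟩
      exact hT2 D ((((le_max_left _ _).trans (le_max_left _ _)).trans (le_max_left _ _)).trans h2)
        h3 K σ n s m F Q h1 h4.quadratic h4.blocks h5 y h6 h7 h8 h9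
    refine ⟨T.finite_toSet.subset hsub, le_trans ?_ hT1⟩
    have h1 := Set.ncard_le_ncard hsub T.finite_toSet
    rw [Set.ncard_coe_finset] at h1
    exact_mod_cast h1
  · intro k _ _ s F hF D hD
    have hD₂ : R₂ ≤ D :=
      (((le_max_right _ _).trans (le_max_left _ _)).trans (le_max_left _ _)).trans hD
    have hD₃ : R₃ ≤ D :=
      (((le_max_left _ _).trans (le_max_right _ _)).trans (le_max_left _ _)).trans hD
    have hD₄ : R₄ ≤ D :=
      (((le_max_right _ _).trans (le_max_right _ _)).trans (le_max_left _ _)).trans hD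
    have hD1 : 1 ≤ D := (le_max_right _ _).trans hD
    choose g hg1 hg2 using hF
    obtain ⟨M, q, Δ, hq, hz, hΔ, HΔ⟩ := H D hD1 k s F g hg2 hg1
    have hquad : ∀ c : Fin (N * (2 * N + 1)) × Fin M → k, ∀ t, (comb q c t).IsHomogeneous 2 := by
      intro c t
      refine IsHomogeneous.sum _ _ _ fun i _ => ?_
      have := (isHomogeneous_C (Fin (N + 1)) (c (t, i))).mul (hq i)
      simpa using this
    have hnice : ∀ c, eval c Δ ≠ 0 → Nice m F D (comb q c) := by
      intro c hc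
      obtain ⟨h1, h2, h3⟩ := HΔ c hc
      exact ⟨⟨hquad c, h3⟩, h1, h2, fun σ L _ _ w y hw hy =>
        H₃ D hD₃ k n s m F (comb q c) (hquad c) h3 σ L w y hw hy, fun σ f hf h0 hf2 =>
        H₄ D hD₄ k n s m F (comb q c) (hquad c) h3 σ f hf h0 hf2⟩
    refine ⟨M, q, hq, hz, ⟨Δ, hΔ, hnice⟩, ?_⟩
    obtain ⟨T₀, hT₀⟩ := H₂ k n s M m F q D hD₂ hq (fun Ω _ _ y hy h => (hz Ω y hy).1 h) Δ hΔ
    refine ⟨T₀, fun T hT => ?_⟩
    have hfin : {c : Fin (N * (2 * N + 1)) × Fin M → ℤ | (∀ p, |c p| ≤ T) ∧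
        ¬ (Nice m F D (comb q fun p => (c p : k)) ∧
          NoPoints m F D (comb q fun p => (c p : k)) κ (T ^ A))}.Finite := by
      refine (Pool.Agent.K9h36.LG.box _ T).finite_toSet.subset fun c hc => ?_
      exact Pool.Agent.K9h36.LG.mem_box.2 hc.1
    rw [Set.ncard_eq_toFinset_card _ hfin]
    refine hT₀ T hT _ fun c hc => ?_
    obtain ⟨hc1, hc2⟩ := hfin.mem_toFinset.1 hc
    refine ⟨hc1, ?_⟩
    by_cases h0 : eval (fun p => ((c p : ℤ) : k)) Δ = 0
    · exact Or.inl h0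
    right
    have hn := hnice _ h0
    have h1 : ¬ NoPoints m F D (comb q fun p => (c p : k)) κ (T ^ A) := fun h => hc2 ⟨hn, h⟩
    unfold NoPoints at h1
    push Not at h1
    obtain ⟨K, i1, i2, i3, y, h2, h3, h4, h5, h6⟩ := h1
    refine ⟨K, i1, i2, i3, y, hn.adapted.blocks, h2, h3, h4, ?_, h6⟩
    push_cast at h5
    exact h5

end Pool.Agent.Results.MP_2ae8fe_ag.SparseOffAnyVariety
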